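import Pool.Agent.Helper86.LP.Main

/-!
Energy of the Bernoulli kernel.

PROOF of `energy`.  `B2 t = (1/π²) ∑_{k ≥ 1} cos (2 π k t) / k²` (HasSum; see LH/Fej.lean, which
has it for `B2`), so `B2 (x+y) + B2 (x-y) = (2/π²) ∑ cos (2πkx) cos (2πky) / k²`, the double sum is
`(2/π²) ∑_k (1/k²) (∑_i w i cos (2πk x i))²`, all terms nonnegative; keep one term.
PROOF of `good_weights`.  `C1 = ∑ cos (2π x i)`, `C2 = ∑ cos (4π x i)`.  If `|C1| ≥ M/8` or
`|C2| ≥ M/8`: `w = 1`, `energy` with `k = 1` or `k = 2` (`2/(4 π²) * M²/64 ≥ M²/1300`).  Otherwise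
`w i = 1 + cos (2π x i)`: `∑ w cos (2π x i) = C1 + (M + C2)/2 ≥ 5M/16`, `∑ w = M + C1 ≥ 7M/8`.
-/

namespace Pool.Agent.Helper86.LQ

open Pool.Agent.Helper86.LH

private theorem En_hasSum (x : ℝ) :
    HasSum (fun k : ℕ => 1 / (k : ℝ) ^ 2 * Real.cos (2 * Real.pi * k * x)) (Real.pi ^ 2 * B2 x) := by
  have h1 := hasSum_one_div_nat_pow_mul_cos (k := 1) one_ne_zero (x := Int.fract x)
    ⟨Int.fract_nonneg x, (Int.fract_lt_one x).le⟩
  have h2 : ((-1 : ℝ) ^ (1 + 1) * (2 * Real.pi) ^ (2 * 1) / 2 / (2 * 1).factorial *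
      (Polynomial.map (algebraMap ℚ ℝ) (Polynomial.bernoulli (2 * 1))).eval (Int.fract x)) =
      Real.pi ^ 2 * B2 x := by
    simp_rw [Polynomial.bernoulli, Finset.sum_range_succ, Polynomial.map_add,
      Polynomial.map_monomial, Polynomial.eval_add, Polynomial.eval_monomial]
    rw [Finset.sum_range_zero, _root_.bernoulli_one,
      bernoulli_eq_bernoulli'_of_ne_one zero_ne_one, bernoulli'_zero,
      bernoulli_eq_bernoulli'_of_ne_one (by decide : 2 ≠ 1), bernoulli'_two]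
    simp [B2, Nat.factorial]
    ring
  rw [h2] at h1
  have h3 : (fun k : ℕ => 1 / (k : ℝ) ^ 2 * Real.cos (2 * Real.pi * k * x)) =
      fun k : ℕ => 1 / (k : ℝ) ^ (2 * 1) * Real.cos (2 * Real.pi * k * Int.fract x) := by
    funext k
    have h4 : 2 * Real.pi * k * x =
        2 * Real.pi * k * Int.fract x + ((k * ⌊x⌋ : ℤ) : ℝ) * (2 * Real.pi) := by
      have h5 := Int.self_sub_floor x
      push_cast
      rw [← h5]
      ring
    rw [h4, Real.cos_add_int_mul_two_pi, mul_one]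
  rw [h3]
  exact h1

theorem energy (M : ℕ) (x w : ℕ → ℝ) (k : ℕ) (hk : 0 < k) :
    2 / (Real.pi ^ 2 * k ^ 2) *
      (∑ i ∈ Finset.Icc 1 M, w i * Real.cos (2 * Real.pi * k * x i)) ^ 2 ≤
    ∑ i ∈ Finset.Icc 1 M, ∑ j ∈ Finset.Icc 1 M,
      w i * w j * (B2 (x i + x j) + B2 (x i - x j)) := by
  have hpi : 0 < Real.pi ^ 2 := by positivity
  have hk0 : (0 : ℝ) < k := by exact_mod_cast hk
  have h1 := hasSum_sum (s := Finset.Icc 1 M) fun i _ =>
    hasSum_sum (s := Finset.Icc 1 M) fun j _ =>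
      ((En_hasSum (x i + x j)).add (En_hasSum (x i - x j))).mul_left (w i * w j)
  have h2 : ∀ n : ℕ, (∑ i ∈ Finset.Icc 1 M, ∑ j ∈ Finset.Icc 1 M, w i * w j *
      (1 / (n : ℝ) ^ 2 * Real.cos (2 * Real.pi * n * (x i + x j)) +
        1 / (n : ℝ) ^ 2 * Real.cos (2 * Real.pi * n * (x i - x j)))) =
      2 / (n : ℝ) ^ 2 * (∑ i ∈ Finset.Icc 1 M, w i * Real.cos (2 * Real.pi * n * x i)) ^ 2 := by
    intro n
    rw [sq (∑ i ∈ Finset.Icc 1 M, w i * Real.cos (2 * Real.pi * n * x i)), Finset.sum_mul_sum,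
      Finset.mul_sum]
    refine Finset.sum_congr rfl fun i _ => ?_
    rw [Finset.mul_sum]
    refine Finset.sum_congr rfl fun j _ => ?_
    rw [mul_add (2 * Real.pi * n), mul_sub (2 * Real.pi * n), Real.cos_add, Real.cos_sub]
    ring
  have h3 := le_hasSum h1 k (fun n _ => by
    rw [h2 n]
    positivity)
  rw [h2 k] at h3
  have h4 : (∑ i ∈ Finset.Icc 1 M, ∑ j ∈ Finset.Icc 1 M,
      w i * w j * (Real.pi ^ 2 * B2 (x i + x j) + Real.pi ^ 2 * B2 (x i - x j))) =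
      Real.pi ^ 2 * ∑ i ∈ Finset.Icc 1 M, ∑ j ∈ Finset.Icc 1 M,
        w i * w j * (B2 (x i + x j) + B2 (x i - x j)) := by
    rw [Finset.mul_sum]
    refine Finset.sum_congr rfl fun i _ => ?_
    rw [Finset.mul_sum]
    refine Finset.sum_congr rfl fun j _ => ?_
    ring
  rw [h4] at h3
  refine le_of_mul_le_mul_left (le_trans (le_of_eq ?_) h3) hpi
  field_simp

theorem good_weights (M : ℕ) (x : ℕ → ℝ) :
    ∃ w : ℕ → ℝ, (∀ i, 0 ≤ w i ∧ w i ≤ 2) ∧ 7 / 8 * (M : ℝ) ≤ ∑ i ∈ Finset.Icc 1 M, w i ∧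
      (M : ℝ) ^ 2 / 1300 ≤ ∑ i ∈ Finset.Icc 1 M, ∑ j ∈ Finset.Icc 1 M,
        w i * w j * (B2 (x i + x j) + B2 (x i - x j)) := by
  have hM : (0 : ℝ) ≤ M := Nat.cast_nonneg M
  have hpi0 : 0 < Real.pi ^ 2 := by positivity
  have hpi : Real.pi ^ 2 ≤ 10 := by
    have h1 := Real.pi_lt_d2
    have h2 := Real.pi_pos
    nlinarith
  have hp : 1 / 5 ≤ 2 / Real.pi ^ 2 := by
    rw [div_le_div_iff₀ (by norm_num) hpi0]
    linarith
  have hcard : ∑ _i ∈ Finset.Icc 1 M, (1 : ℝ) = M := by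
    rw [Finset.sum_const, Nat.card_Icc, nsmul_eq_mul, mul_one, Nat.add_sub_cancel]
  have hsq : ∀ c a : ℝ, 0 ≤ a → a ≤ |c| → a ^ 2 ≤ c ^ 2 := fun c a h0 h1 => by
    rw [← sq_abs c]
    exact pow_le_pow_left₀ h0 h1 2
  by_cases h1 : (M : ℝ) / 8 ≤ |∑ i ∈ Finset.Icc 1 M, Real.cos (2 * Real.pi * x i)|
  · refine ⟨fun _ => 1, fun _ => ⟨zero_le_one, one_le_two⟩, ?_, ?_⟩
    · rw [hcard]
      linarith
    · have h2 := energy M x (fun _ => 1) 1 one_pos
      simp only [one_mul, Nat.cast_one, mul_one, one_pow] at h2 ⊢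
      have h3 := hsq _ _ (by positivity) h1
      refine le_trans ?_ h2
      calc (M : ℝ) ^ 2 / 1300 ≤ 1 / 5 * ((M : ℝ) / 8) ^ 2 := by
            have := sq_nonneg (M : ℝ)
            linarith [this, (by ring : 1 / 5 * ((M : ℝ) / 8) ^ 2 = (M : ℝ) ^ 2 / 320)]
        _ ≤ 2 / Real.pi ^ 2 * _ := mul_le_mul hp h3 (sq_nonneg _) (by positivity)
  · by_cases h2 : (M : ℝ) / 8 ≤ |∑ i ∈ Finset.Icc 1 M, Real.cos (2 * Real.pi * 2 * x i)|
    · refine ⟨fun _ => 1, fun _ => ⟨zero_le_one, one_le_two⟩, ?_, ?_⟩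
      · rw [hcard]
        linarith
      · have h3 := energy M x (fun _ => 1) 2 two_pos
        simp only [one_mul, Nat.cast_ofNat] at h3 ⊢
        have h4 := hsq _ _ (by positivity) h2
        refine le_trans ?_ h3
        have hp2 : 1 / 20 ≤ 2 / (Real.pi ^ 2 * 2 ^ 2) := by
          rw [div_le_div_iff₀ (by norm_num) (by positivity)]
          linarith
        calc (M : ℝ) ^ 2 / 1300 ≤ 1 / 20 * ((M : ℝ) / 8) ^ 2 := by
              have := sq_nonneg (M : ℝ)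
              linarith [this, (by ring : 1 / 20 * ((M : ℝ) / 8) ^ 2 = (M : ℝ) ^ 2 / 1280)]
          _ ≤ 2 / (Real.pi ^ 2 * 2 ^ 2) * _ := mul_le_mul hp2 h4 (sq_nonneg _) (by positivity)
    · rw [not_le, abs_lt] at h1 h2
      refine ⟨fun i => 1 + Real.cos (2 * Real.pi * x i), fun i => ⟨?_, ?_⟩, ?_, ?_⟩
      · have := Real.neg_one_le_cos (2 * Real.pi * x i)
        linarith
      · have := Real.cos_le_one (2 * Real.pi * x i)
        linarith
      · rw [Finset.sum_add_distrib, hcard]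
        linarith [h1.1]
      · have h3 := energy M x (fun i => 1 + Real.cos (2 * Real.pi * x i)) 1 one_pos
        simp only [Nat.cast_one, mul_one, one_pow] at h3
        refine le_trans ?_ h3
        have h4 : ∑ i ∈ Finset.Icc 1 M, (1 + Real.cos (2 * Real.pi * x i)) *
            Real.cos (2 * Real.pi * x i) =
            ∑ i ∈ Finset.Icc 1 M, Real.cos (2 * Real.pi * x i) +
              (M + ∑ i ∈ Finset.Icc 1 M, Real.cos (2 * Real.pi * 2 * x i)) / 2 := by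
          rw [← hcard, ← Finset.sum_add_distrib, Finset.sum_div, ← Finset.sum_add_distrib]
          refine Finset.sum_congr rfl fun i _ => ?_
          have h5 : 2 * Real.pi * 2 * x i = 2 * (2 * Real.pi * x i) := by ring
          rw [h5, Real.cos_two_mul]
          ring
        rw [h4]
        have h5 : 5 / 16 * (M : ℝ) ≤ ∑ i ∈ Finset.Icc 1 M, Real.cos (2 * Real.pi * x i) +
              (M + ∑ i ∈ Finset.Icc 1 M, Real.cos (2 * Real.pi * 2 * x i)) / 2 := by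
          linarith [h1.1, h2.1]
        have h6 := pow_le_pow_left₀ (by positivity) h5 2
        calc (M : ℝ) ^ 2 / 1300 ≤ 1 / 5 * (5 / 16 * (M : ℝ)) ^ 2 := by
              have := sq_nonneg (M : ℝ)
              linarith [this, (by ring : 1 / 5 * (5 / 16 * (M : ℝ)) ^ 2 = 5 / 256 * (M : ℝ) ^ 2)]
          _ ≤ 2 / Real.pi ^ 2 * _ := mul_le_mul hp h6 (sq_nonneg _) (by positivity)

end Pool.Agent.Helper86.LQ
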