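import Pool.Agent.Helper86.LQ.Sum

/-!
The final inequality with bounded error at every place.
-/

open Height AdmissibleAbsValues Filter Topology

namespace Pool.Agent.Helper86.LQ

open WeierstrassCurve WeierstrassCurve.Affine WeierstrassCurve.Affine.Point NumberField
open Pool.Agent.Helper86.LH Pool.Agent.Helper86.LK Pool.Agent.Helper86.LM
open Pool.Agent.Helper86.LN Pool.Agent.Helper86.LO Pool.Agent.Helper86.LP

theorem pigeon_gen {ι β : Type*} [DecidableEq β] (U : Finset ι) (T : ι → ℝ) (θ : ι → β)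
    (hT : ∀ x ∈ U, 0 ≤ T x) (Z : Finset β) (hZ : ∀ x ∈ U, θ x ∈ Z) {c : ℝ}
    (hc : c ≤ ∑ x ∈ U, T x) {r : ℕ} (hr : Z.card ≤ r) (hr0 : 0 < r) (b : β) :
    ∃ I ⊆ U, ∃ ψ : β, (∀ x ∈ I, θ x = ψ) ∧ c / r ≤ ∑ x ∈ I, T x := by
  have hr' : (0 : ℝ) < r := by exact_mod_cast hr0
  rcases le_or_gt c 0 with h0 | h0
  · refine ⟨∅, Finset.empty_subset _, b, by simp, ?_⟩
    rw [Finset.sum_empty]
    exact div_nonpos_of_nonpos_of_nonneg h0 hr'.le
  · by_contra hcon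
    push Not at hcon
    have h1 : ∀ ψ ∈ Z, ∑ x ∈ U with θ x = ψ, T x < c / r := fun ψ _ =>
      hcon _ (Finset.filter_subset _ _) ψ (fun x hx => (Finset.mem_filter.mp hx).2)
    have h2 : ∑ x ∈ U, T x = ∑ ψ ∈ Z, ∑ x ∈ U with θ x = ψ, T x :=
      (Finset.sum_fiberwise_of_maps_to hZ T).symm
    have hZne : Z.Nonempty := by
      rw [Finset.nonempty_iff_ne_empty]
      rintro rfl
      rw [h2, Finset.sum_empty] at hc
      linarith
    have h3 : ∑ ψ ∈ Z, ∑ x ∈ U with θ x = ψ, T x < ∑ ψ ∈ Z, c / r :=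
      Finset.sum_lt_sum_of_nonempty hZne h1
    rw [Finset.sum_const, nsmul_eq_mul] at h3
    have h4 : (Z.card : ℝ) * (c / r) ≤ r * (c / r) :=
      mul_le_mul_of_nonneg_right (by exact_mod_cast hr) (by positivity)
    rw [mul_div_cancel₀ _ hr'.ne'] at h4
    linarith

theorem opt5 {ε X t H : ℝ} (hε0 : 0 < ε) (hX : 0 ≤ X) (ht : 0 ≤ t) {M : ℕ}
    (hM1 : 1300 / ε ≤ M) (hM2 : (M : ℝ) ≤ 1301 / ε)
    (h : 1 / 3 * M * X - 1361 * M ^ 2 * t ≤ 2304 * H * (M : ℝ) ^ 4) :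
    ε ^ 3 * X / 16000000000000 - ε ^ 2 * t / 2500000 ≤ H := by
  have hMpos : (0 : ℝ) < M := lt_of_lt_of_le (by positivity) hM1
  have f1 : ε * M ≤ 1301 := by
    have := mul_le_mul_of_nonneg_left hM2 hε0.le
    rwa [mul_div_cancel₀ _ hε0.ne'] at this
  have f2 : 1300 ≤ ε * M := by
    have := mul_le_mul_of_nonneg_left hM1 hε0.le
    rwa [mul_div_cancel₀ _ hε0.ne'] at this
  have f3 : (ε * M) ^ 3 ≤ 1301 ^ 3 := pow_le_pow_left₀ (by linarith) f1 3
  have f4 : 1300 ^ 2 ≤ (ε * M) ^ 2 := pow_le_pow_left₀ (by norm_num) f2 2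
  have g1 : (ε * M) ^ 3 * (M * X) ≤ 1301 ^ 3 * (M * X) :=
    mul_le_mul_of_nonneg_right f3 (mul_nonneg hMpos.le hX)
  have g2 : 1300 ^ 2 * (M ^ 2 * t) ≤ (ε * M) ^ 2 * (M ^ 2 * t) :=
    mul_le_mul_of_nonneg_right f4 (by positivity)
  have hM4 : (0 : ℝ) < 2304 * (M : ℝ) ^ 4 := by positivity
  have k0 : 0 ≤ M * X := mul_nonneg hMpos.le hX
  have k1 : 0 ≤ (M : ℝ) ^ 2 * t := by positivity
  have key : (ε ^ 3 * X / 16000000000000 - ε ^ 2 * t / 2500000) * (2304 * (M : ℝ) ^ 4) ≤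
      H * (2304 * (M : ℝ) ^ 4) := by
    have e1 : (ε ^ 3 * X / 16000000000000 - ε ^ 2 * t / 2500000) * (2304 * (M : ℝ) ^ 4) =
        2304 / 16000000000000 * ((ε * M) ^ 3 * (M * X)) -
          2304 / 2500000 * ((ε * M) ^ 2 * (M ^ 2 * t)) := by ring
    rw [e1]
    have e2 : 1 / 3 * M * X - 1361 * M ^ 2 * t = 1 / 3 * (M * X) - 1361 * (M ^ 2 * t) := by ring
    rw [e2] at h
    have e3 : 2304 * H * (M : ℝ) ^ 4 = H * (2304 * (M : ℝ) ^ 4) := by ring
    rw [e3] at h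
    norm_num at g1 g2 ⊢
    linarith
  exact le_of_mul_le_mul_right key hM4

variable {K : Type*} [Field K] [NumberField K] [DecidableEq K]
  (W : WeierstrassCurve.Affine K) [W.IsElliptic]

theorem B2_neg (t : ℝ) : B2 (-t) = B2 t := by rw [dn_B2, dn_B2, DN_neg]

theorem pair_main {S : Finset (NV K)} (hS : Big W S) (P : W.Point)
    (hP : ∀ n : ℕ, 0 < n → n • P ≠ 0) {H : W.Point → ℝ}
    (hH : ∀ P : W.Point, Tendsto (fun k : ℕ => logHeight ((2 ^ k • P).xRep) / 4 ^ k)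
        atTop (𝓝 (H P))) (hHm : ∀ (P : W.Point) (m : ℕ), H (m • P) = m ^ 2 * H P)
    {i j : ℕ} (hi : 0 < i) (hj : 0 < j) :
    ∑ x ∈ (Finset.univ : Finset (InfinitePlace K)).disjSum S,
      TT W x * (B2 (XI W P x i + XI W P x j) + B2 (XI W P x i - XI W P x j)) +
      (1 / 6 * addH W - 340 * totalWeight K) -
      (if i = j then 1 / 6 * ∑ x ∈ (Finset.univ : Finset (InfinitePlace K)).disjSum S, TT W x
        else 0) ≤ 288 * H P * ((i : ℝ) ^ 2 + (j : ℝ) ^ 2) := by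
  classical
  obtain ⟨S0, hS0⟩ : ∃ S0, S0 = (Finset.univ : Finset (InfinitePlace K)).disjSum S := ⟨_, rfl⟩
  have hG0 : 0 ≤ addH W := by
    rw [addH_eq W hS]
    exact Finset.sum_nonneg fun v _ => ga_nonneg W v.val
  have ht : (0 : ℝ) ≤ totalWeight K := Nat.cast_nonneg _
  have h12 : ∀ n : ℕ, 0 < n → 12 • (n • P) ≠ 0 := by
    intro n hn
    rw [← mul_nsmul']
    exact hP _ (by omega)
  have hHn : ∀ n : ℕ, H (12 • (n • P)) = 144 * ((n : ℝ) ^ 2 * H P) := by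
    intro n
    rw [hHm, hHm]
    push_cast
    ring
  have main : ∀ a b : ℕ, 0 < b → b < a → ∑ x ∈ S0,
      TT W x * (B2 (XI W P x a + XI W P x b) + B2 (XI W P x a - XI W P x b)) +
      (1 / 6 * addH W - 340 * totalWeight K) ≤ 288 * H P * ((a : ℝ) ^ 2 + (b : ℝ) ^ 2) := by
    intro a b hb hab
    have h1 := base_ineq W hS ((a + b) • P) (h12 _ (by omega)) hH
    have h2 := base_ineq W hS ((a - b) • P) (h12 _ (by omega)) hH
    rw [hHn] at h1 h2
    have h3 := Finset.sum_le_sum (s := S0) fun x (_ : x ∈ S0) => loc_pair W P hab x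
    rw [Finset.sum_sub_distrib, Finset.sum_add_distrib, hS0, ER_sum S, ← hS0] at h3
    rw [← hS0] at h1 h2
    rw [Nat.cast_sub hab.le] at h2
    push_cast at h1
    have e : 144 * (((a : ℝ) + b) ^ 2 * H P) + 144 * (((a : ℝ) - b) ^ 2 * H P) =
        288 * H P * ((a : ℝ) ^ 2 + (b : ℝ) ^ 2) := by ring
    linarith
  rw [← hS0]
  rcases lt_trichotomy i j with h | h | h
  · rw [if_neg h.ne, sub_zero]
    have := main j i hi h
    have e : ∀ x ∈ S0, TT W x * (B2 (XI W P x i + XI W P x j) + B2 (XI W P x i - XI W P x j)) =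
        TT W x * (B2 (XI W P x j + XI W P x i) + B2 (XI W P x j - XI W P x i)) := by
      intro x _
      rw [add_comm (XI W P x i), ← neg_sub (XI W P x j) (XI W P x i), B2_neg]
    rw [Finset.sum_congr rfl e, add_comm ((i : ℝ) ^ 2)]
    exact this
  · subst h
    rw [if_pos rfl]
    have h1 := base_ineq W hS ((i + i) • P) (h12 _ (by omega)) hH
    rw [hHn, ← hS0] at h1
    have h3 := Finset.sum_le_sum (s := S0) fun x (_ : x ∈ S0) => loc_diag W P i x
    rw [Finset.sum_sub_distrib, Finset.sum_sub_distrib, ← Finset.sum_div, hS0, ER_sum S,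
      ← hS0] at h3
    push_cast at h1
    have e : 144 * (((i : ℝ) + i) ^ 2 * H P) = 288 * H P * ((i : ℝ) ^ 2 + (i : ℝ) ^ 2) := by ring
    linarith
  · rw [if_neg h.ne', sub_zero]
    exact main i j hj h

theorem core5 {S : Finset (NV K)} (hS : Big W S) (P : W.Point)
    (hP : ∀ n : ℕ, 0 < n → n • P ≠ 0) {H : W.Point → ℝ}
    (hH : ∀ P : W.Point, Tendsto (fun k : ℕ => logHeight ((2 ^ k • P).xRep) / 4 ^ k)
        atTop (𝓝 (H P))) (hHm : ∀ (P : W.Point) (m : ℕ), H (m • P) = m ^ 2 * H P)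
    (hH0 : 0 ≤ H P) (M : ℕ) (I : Finset (InfinitePlace K ⊕ NV K))
    (hI : I ⊆ (Finset.univ : Finset (InfinitePlace K)).disjSum S) (ξ : ℕ → ℝ)
    (hξ : ∀ x ∈ I, XI W P x = ξ) :
    (M : ℝ) ^ 2 / 1300 * ∑ x ∈ I, TT W x + 49 / 384 * M ^ 2 * addH W -
      2 / 3 * M * ∑ x ∈ (Finset.univ : Finset (InfinitePlace K)).disjSum S, TT W x -
      1360 * M ^ 2 * totalWeight K ≤ 2304 * H P * (M : ℝ) ^ 4 := by
  classical
  obtain ⟨w, hw, hw1, hw2⟩ := good_weights M ξ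
  obtain ⟨S0, hS0⟩ : ∃ S0, S0 = (Finset.univ : Finset (InfinitePlace K)).disjSum S := ⟨_, rfl⟩
  rw [← hS0] at hI ⊢
  have hG0 : 0 ≤ addH W := by
    rw [addH_eq W hS]
    exact Finset.sum_nonneg fun v _ => ga_nonneg W v.val
  have ht : (0 : ℝ) ≤ totalWeight K := Nat.cast_nonneg _
  set T := ∑ x ∈ S0, TT W x with hT
  have hT0 : 0 ≤ T := Finset.sum_nonneg fun y _ => TT_nonneg W y
  set G := addH W with hG
  have hM0 : (0 : ℝ) ≤ M := Nat.cast_nonneg _
  -- the double sum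
  have h1 : ∑ i ∈ Finset.Icc 1 M, ∑ j ∈ Finset.Icc 1 M, w i * w j *
      (∑ x ∈ S0, TT W x * (B2 (XI W P x i + XI W P x j) + B2 (XI W P x i - XI W P x j)) +
      (1 / 6 * G - 340 * totalWeight K) - (if i = j then 1 / 6 * T else 0)) ≤
      ∑ i ∈ Finset.Icc 1 M, ∑ j ∈ Finset.Icc 1 M, w i * w j *
        (288 * H P * ((i : ℝ) ^ 2 + (j : ℝ) ^ 2)) := by
    apply Finset.sum_le_sum
    intro i hi
    apply Finset.sum_le_sum
    intro j hj
    apply mul_le_mul_of_nonneg_left _ (mul_nonneg (hw i).1 (hw j).1)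
    have := pair_main W hS P hP hH hHm (Finset.mem_Icc.mp hi).1 (Finset.mem_Icc.mp hj).1
    rw [← hS0] at this
    exact this
  have h2 : ∑ i ∈ Finset.Icc 1 M, ∑ j ∈ Finset.Icc 1 M, w i * w j *
      (∑ x ∈ S0, TT W x * (B2 (XI W P x i + XI W P x j) + B2 (XI W P x i - XI W P x j)) +
      (1 / 6 * G - 340 * totalWeight K) - (if i = j then 1 / 6 * T else 0)) =
      ∑ x ∈ S0, TT W x * (∑ i ∈ Finset.Icc 1 M, ∑ j ∈ Finset.Icc 1 M, w i * w j *
        (B2 (XI W P x i + XI W P x j) + B2 (XI W P x i - XI W P x j))) +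
      (1 / 6 * G - 340 * totalWeight K) * (∑ i ∈ Finset.Icc 1 M, w i) ^ 2 -
      1 / 6 * T * ∑ i ∈ Finset.Icc 1 M, w i * w i := by
    have a1 : ∀ i ∈ Finset.Icc 1 M, ∀ j ∈ Finset.Icc 1 M, w i * w j *
        (∑ x ∈ S0, TT W x * (B2 (XI W P x i + XI W P x j) + B2 (XI W P x i - XI W P x j)) +
        (1 / 6 * G - 340 * totalWeight K) - (if i = j then 1 / 6 * T else 0)) =
        ∑ x ∈ S0, TT W x * (w i * w j *
          (B2 (XI W P x i + XI W P x j) + B2 (XI W P x i - XI W P x j))) +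
        (1 / 6 * G - 340 * totalWeight K) * (w i * w j) -
        (if i = j then 1 / 6 * T * (w i * w j) else 0) := by
      intro i _ j _
      rw [mul_sub, mul_add, Finset.mul_sum]
      congr 1
      · congr 1
        · exact Finset.sum_congr rfl fun x _ => by ring
        · ring
      · split_ifs <;> ring
    rw [Finset.sum_congr rfl fun i hi => Finset.sum_congr rfl (a1 i hi)]
    simp only [Finset.sum_sub_distrib, Finset.sum_add_distrib]
    congr 1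
    · congr 1
      · rw [Finset.sum_congr rfl fun i _ => Finset.sum_comm, Finset.sum_comm]
        exact Finset.sum_congr rfl fun x _ => by
          rw [Finset.mul_sum]
          exact Finset.sum_congr rfl fun i _ => by rw [Finset.mul_sum]
      · rw [pow_two, Finset.sum_mul_sum, Finset.mul_sum]
        exact Finset.sum_congr rfl fun i _ => by rw [Finset.mul_sum]
    · have a2 : ∀ i ∈ Finset.Icc 1 M, ∑ j ∈ Finset.Icc 1 M,
          (if i = j then 1 / 6 * T * (w i * w j) else 0) = 1 / 6 * T * (w i * w i) := by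
        intro i hi
        rw [Finset.sum_ite_eq, if_pos hi]
      rw [Finset.sum_congr rfl a2, ← Finset.mul_sum]
  rw [h2] at h1
  have h3 : ∑ i ∈ Finset.Icc 1 M, ∑ j ∈ Finset.Icc 1 M, w i * w j *
        (288 * H P * ((i : ℝ) ^ 2 + (j : ℝ) ^ 2)) ≤ 2304 * H P * (M : ℝ) ^ 4 := by
    have b1 : ∀ i ∈ Finset.Icc 1 M, ∀ j ∈ Finset.Icc 1 M, w i * w j *
        (288 * H P * ((i : ℝ) ^ 2 + (j : ℝ) ^ 2)) ≤ 2304 * H P * (M : ℝ) ^ 2 := by
      intro i hi j hj
      have ci : (i : ℝ) ≤ M := by exact_mod_cast (Finset.mem_Icc.mp hi).2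
      have cj : (j : ℝ) ≤ M := by exact_mod_cast (Finset.mem_Icc.mp hj).2
      have ci2 : (i : ℝ) ^ 2 ≤ M ^ 2 := pow_le_pow_left₀ (Nat.cast_nonneg _) ci 2
      have cj2 : (j : ℝ) ^ 2 ≤ M ^ 2 := pow_le_pow_left₀ (Nat.cast_nonneg _) cj 2
      have cw : w i * w j ≤ 4 := by
        have := mul_le_mul (hw i).2 (hw j).2 (hw j).1 (by norm_num)
        linarith
      have cw0 : 0 ≤ w i * w j := mul_nonneg (hw i).1 (hw j).1
      have c1 : 288 * H P * ((i : ℝ) ^ 2 + (j : ℝ) ^ 2) ≤ 288 * H P * (2 * M ^ 2) :=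
        mul_le_mul_of_nonneg_left (by linarith) (by linarith)
      calc w i * w j * (288 * H P * ((i : ℝ) ^ 2 + (j : ℝ) ^ 2)) ≤
          w i * w j * (288 * H P * (2 * M ^ 2)) := mul_le_mul_of_nonneg_left c1 cw0
        _ ≤ 4 * (288 * H P * (2 * M ^ 2)) := mul_le_mul_of_nonneg_right cw (by positivity)
        _ = 2304 * H P * (M : ℝ) ^ 2 := by ring
    have b2 := Finset.sum_le_sum fun i (hi : i ∈ Finset.Icc 1 M) => Finset.sum_le_sum (b1 i hi)
    refine b2.trans (le_of_eq ?_)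
    simp only [Finset.sum_const, Nat.card_Icc, Nat.add_sub_cancel, nsmul_eq_mul]
    ring
  have h4 : (M : ℝ) ^ 2 / 1300 * ∑ x ∈ I, TT W x ≤
      ∑ x ∈ S0, TT W x * (∑ i ∈ Finset.Icc 1 M, ∑ j ∈ Finset.Icc 1 M, w i * w j *
        (B2 (XI W P x i + XI W P x j) + B2 (XI W P x i - XI W P x j))) := by
    have d1 : ∀ x, 0 ≤ ∑ i ∈ Finset.Icc 1 M, ∑ j ∈ Finset.Icc 1 M, w i * w j *
        (B2 (XI W P x i + XI W P x j) + B2 (XI W P x i - XI W P x j)) := by
      intro x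
      refine le_trans ?_ (energy M (XI W P x) w 1 one_pos)
      positivity
    rw [Finset.mul_sum]
    calc ∑ x ∈ I, (M : ℝ) ^ 2 / 1300 * TT W x ≤
        ∑ x ∈ I, TT W x * (∑ i ∈ Finset.Icc 1 M, ∑ j ∈ Finset.Icc 1 M, w i * w j *
          (B2 (XI W P x i + XI W P x j) + B2 (XI W P x i - XI W P x j))) := by
          apply Finset.sum_le_sum
          intro x hx
          rw [mul_comm, hξ x hx]
          exact mul_le_mul_of_nonneg_left hw2 (TT_nonneg W x)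
      _ ≤ _ := Finset.sum_le_sum_of_subset_of_nonneg hI
          (fun x _ _ => mul_nonneg (TT_nonneg W x) (d1 x))
  have hsw : ∑ i ∈ Finset.Icc 1 M, w i ≤ 2 * M := by
    have := Finset.sum_le_sum fun i (_ : i ∈ Finset.Icc 1 M) => (hw i).2
    simp only [Finset.sum_const, Nat.card_Icc, Nat.add_sub_cancel, nsmul_eq_mul] at this
    linarith
  have hsw2 : ∑ i ∈ Finset.Icc 1 M, w i * w i ≤ 4 * M := by
    have := Finset.sum_le_sum fun i (_ : i ∈ Finset.Icc 1 M) =>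
      (mul_le_mul (hw i).2 (hw i).2 (hw i).1 (by norm_num) : w i * w i ≤ 2 * 2)
    simp only [Finset.sum_const, Nat.card_Icc, Nat.add_sub_cancel, nsmul_eq_mul] at this
    linarith
  have hs1 : (7 / 8 * (M : ℝ)) ^ 2 ≤ (∑ i ∈ Finset.Icc 1 M, w i) ^ 2 :=
    pow_le_pow_left₀ (by positivity) hw1 2
  have hs2 : (∑ i ∈ Finset.Icc 1 M, w i) ^ 2 ≤ (2 * M) ^ 2 :=
    pow_le_pow_left₀ (le_trans (by positivity) hw1) hsw 2
  generalize (∑ i ∈ Finset.Icc 1 M, w i) ^ 2 = s2 at *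
  have k1 : 1 / 6 * G * (7 / 8 * (M : ℝ)) ^ 2 ≤ 1 / 6 * G * s2 :=
    mul_le_mul_of_nonneg_left hs1 (by linarith)
  have k2 : 340 * totalWeight K * s2 ≤ 340 * totalWeight K * (2 * (M : ℝ)) ^ 2 :=
    mul_le_mul_of_nonneg_left hs2 (by linarith)
  have k3 : 1 / 6 * T * ∑ i ∈ Finset.Icc 1 M, w i * w i ≤ 1 / 6 * T * (4 * M) :=
    mul_le_mul_of_nonneg_left hsw2 (by linarith)
  have e1 : (1 / 6 * G - 340 * totalWeight K) * s2 =
      1 / 6 * G * s2 - 340 * totalWeight K * s2 := by ring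
  have e2 : 1 / 6 * G * (7 / 8 * (M : ℝ)) ^ 2 = 49 / 384 * M ^ 2 * G := by ring
  have e3 : 340 * totalWeight K * (2 * (M : ℝ)) ^ 2 = 1360 * M ^ 2 * totalWeight K := by ring
  have e4 : 1 / 6 * T * (4 * M) = 2 / 3 * M * T := by ring
  rw [e1] at h1
  rw [e2] at k1
  rw [e3] at k2
  rw [e4] at k3
  linarith

theorem all_main5 {ε : ℝ} (hε0 : 0 < ε) (hε1 : ε ≤ 1) {S : Finset (NV K)} (hS : Big W S)
    (P : W.Point) (hP : ∀ n : ℕ, 0 < n → n • P ≠ 0) {H : W.Point → ℝ}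
    (hH : ∀ P : W.Point, Tendsto (fun k : ℕ => logHeight ((2 ^ k • P).xRep) / 4 ^ k)
        atTop (𝓝 (H P))) (hHm : ∀ (P : W.Point) (m : ℕ), H (m • P) = m ^ 2 * H P)
    (hH0 : ∀ P : W.Point, 0 ≤ H P)
    (hw : (∃ I ⊆ (Finset.univ : Finset (InfinitePlace K)).disjSum S, ∃ ξ : ℕ → ℝ,
        (∀ x ∈ I, XI W P x = ξ) ∧ ε * logHeight₁ W.j ≤ ∑ x ∈ I, TT W x) ∨
        ε * logHeight₁ W.j ≤ 94 * totalWeight K ∨
        ε * logHeight₁ W.j ≤ addH W) :
    ε ^ 3 * (logHeight₁ W.j + addH W) / 16000000000000 - ε ^ 2 * totalWeight K / 2000000 ≤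
      H P := by
  have h1300 : 0 < 1300 / ε := by positivity
  obtain ⟨M, hM1, hM2⟩ : ∃ M : ℕ, 1300 / ε ≤ M ∧ (M : ℝ) ≤ 1301 / ε := by
    refine ⟨⌈1300 / ε⌉₊, Nat.le_ceil _, ?_⟩
    have h1 := (Nat.ceil_lt_add_one h1300.le).le
    have h2 : 1 ≤ 1 / ε := by
      rw [le_div_iff₀ hε0]
      linarith
    have h3 : 1301 / ε = 1300 / ε + 1 / ε := by ring
    rw [h3]
    linarith
  have hT := TT_sum W hS
  have ht : (0 : ℝ) ≤ totalWeight K := Nat.cast_nonneg _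
  set T := ∑ x ∈ (Finset.univ : Finset (InfinitePlace K)).disjSum S, TT W x with hTdef
  set G := addH W with hG
  have hG0 : 0 ≤ G := by
    rw [hG, addH_eq W hS]
    exact Finset.sum_nonneg fun v _ => ga_nonneg W v.val
  have hT0 : 0 ≤ T := Finset.sum_nonneg fun y _ => TT_nonneg W y
  have hM1300 : (1300 : ℝ) ≤ M := by
    refine le_trans ?_ hM1
    rw [le_div_iff₀ hε0]
    linarith
  have hMpos : (0 : ℝ) < M := by linarith
  have f2 : 1300 ≤ M * ε := by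
    have := mul_le_mul_of_nonneg_right hM1 hε0.le
    rwa [div_mul_cancel₀ _ hε0.ne'] at this
  have hεT : ε * T ≤ ε * logHeight₁ W.j := mul_le_mul_of_nonneg_left hT.2 hε0.le
  have key := fun (I : Finset (InfinitePlace K ⊕ NV K))
    (hI : I ⊆ (Finset.univ : Finset (InfinitePlace K)).disjSum S) (ξ : ℕ → ℝ)
    (hξ : ∀ x ∈ I, XI W P x = ξ) => core5 W hS P hP hH hHm (hH0 P) M I hI ξ hξ
  have k0 := key ∅ (Finset.empty_subset _) (fun _ => 0)
    (fun x hx => absurd hx (Finset.notMem_empty x))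
  rw [Finset.sum_empty, mul_zero, zero_add] at k0
  have g1 : 1 / 3 * (M * G) + M ^ 2 / 1300 * G ≤ 49 / 384 * M ^ 2 * G := by
    have : 1300 * (M * G) ≤ M * (M * G) :=
      mul_le_mul_of_nonneg_right hM1300 (mul_nonneg hMpos.le hG0)
    nlinarith
  have g2 : 0 ≤ (M : ℝ) ^ 2 * G := by positivity
  have g3 : 0 ≤ (M : ℝ) ^ 2 * totalWeight K := by positivity
  -- from a lower bound `M T ≤ M² Y / 1300`
  have red : ∀ Y : ℝ, ε * T ≤ Y → M * T ≤ M ^ 2 / 1300 * Y := by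
    intro Y hY
    have c1 : 1300 * T ≤ M * ε * T := mul_le_mul_of_nonneg_right f2 hT0
    have c2 : M * (ε * T) ≤ M * Y := mul_le_mul_of_nonneg_left hY hMpos.le
    have c3 : 1300 * T ≤ M * Y := by linarith
    have c4 := mul_le_mul_of_nonneg_left c3 hMpos.le
    have c5 : M ^ 2 / 1300 * Y = M * (M * Y) / 1300 := by ring
    rw [c5, le_div_iff₀ (by norm_num)]
    linarith
  have fin : 1 / 3 * M * (T + G) - 1361 * M ^ 2 * totalWeight K ≤ 2304 * H P * (M : ℝ) ^ 4 := by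
    rcases hw with ⟨I, hI, ξ, hξ, hw⟩ | hw | hw
    · have k1 := key I hI ξ hξ
      have r1 := red _ (hεT.trans hw)
      linarith
    · have r1 := red _ (hεT.trans hw)
      linarith
    · have r1 := red _ (hεT.trans hw)
      linarith
  have k := opt5 hε0 (add_nonneg hT0 hG0) ht hM1 hM2 fin
  have hd32 : ε ^ 3 ≤ ε ^ 2 := by
    calc ε ^ 3 = ε ^ 2 * ε := by ring
      _ ≤ ε ^ 2 * 1 := mul_le_mul_of_nonneg_left hε1 (by positivity)
      _ = ε ^ 2 := mul_one _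
  have hd3' : 0 < ε ^ 3 := by positivity
  have a1 : ε ^ 3 * (logHeight₁ W.j + G) ≤ ε ^ 3 * (T + G) + 47 * (ε ^ 2 * totalWeight K) := by
    have b1 : logHeight₁ W.j + G ≤ (T + G) + 47 * totalWeight K := by linarith [hT.1]
    have b2 := mul_le_mul_of_nonneg_left b1 hd3'.le
    have b3 : ε ^ 3 * (47 * (totalWeight K : ℝ)) ≤ ε ^ 2 * (47 * totalWeight K) :=
      mul_le_mul_of_nonneg_right hd32 (by positivity)
    linarith
  have a2 : 0 ≤ ε ^ 2 * (totalWeight K : ℝ) := by positivity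
  linarith

end Pool.Agent.Helper86.LQ
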