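import Pool.Agent.Helper86.LP.Main

/-!
Pairs of multiples: the law gives the pair of component coordinates of `X + Y`, `X - Y` up to a
bounded error.
-/

open Height AdmissibleAbsValues Filter Topology

namespace Pool.Agent.Helper86.LQ

open WeierstrassCurve WeierstrassCurve.Affine WeierstrassCurve.Affine.Point NumberField
open Pool.Agent.Helper86.LH Pool.Agent.Helper86.LK Pool.Agent.Helper86.LM
open Pool.Agent.Helper86.LN Pool.Agent.Helper86.LP

theorem dn_self {x : ℝ} (h0 : 0 ≤ x) (h1 : x ≤ 1 / 2) : dn x = x := by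
  rw [DN_half (by rw [abs_of_nonneg h0]; exact h1), abs_of_nonneg h0]

theorem dn_zero : dn 0 = 0 := dn_self le_rfl (by norm_num)

theorem FF_self {x : ℝ} (h0 : 0 ≤ x) (h1 : x ≤ 1 / 2) : dn (x + x) = FF x x := by
  have h := dn_law x x
  have e : dn (x - x) = 0 := by rw [sub_self]; exact dn_zero
  rw [e, add_zero, dn_self h0 h1] at h
  exact h

theorem pair_law {p q a b x y η : ℝ} (p0 : 0 ≤ p) (p1 : p ≤ 1 / 2) (q0 : 0 ≤ q) (q1 : q ≤ 1 / 2)
    (x0 : 0 ≤ x) (x1 : x ≤ 1 / 2) (y0 : 0 ≤ y) (y1 : y ≤ 1 / 2)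
    (h1 : |p + q - FF x y| ≤ η) (h2 : |a + b - FF p q| ≤ η) (h3 : |a - FF x x| ≤ η)
    (h4 : |b - FF y y| ≤ η) :
    B2 (x + y) + B2 (x - y) - 3 * η ≤ (1 / 6 - p * (1 - p)) + (1 / 6 - q * (1 - q)) := by
  have hη : 0 ≤ η := (abs_nonneg _).trans h1
  rw [dn_B2, dn_B2]
  have e1 : dn (x + y) + dn (x - y) = FF x y := by
    have := dn_law x y
    rw [dn_self x0 x1, dn_self y0 y1] at this
    exact this
  have e2 : dn (2 * x) = FF x x := by
    rw [two_mul]; exact FF_self x0 x1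
  have e3 : dn (2 * y) = FF y y := by
    rw [two_mul]; exact FF_self y0 y1
  have e4 : FF x x + FF y y = FF (dn (x + y)) (dn (x - y)) := by
    have := dn_law (x + y) (x - y)
    rw [show x + y + (x - y) = 2 * x by ring, show x + y - (x - y) = 2 * y by ring, e2, e3] at this
    exact this
  have P0 := DN_nonneg (x + y)
  have P1 := DN_le_half (x + y)
  have Q0 := DN_nonneg (x - y)
  have Q1 := DN_le_half (x - y)
  generalize dn (x + y) = P at *
  generalize dn (x - y) = Q at *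
  have f1 : |FF p q - FF P Q| ≤ 3 * η := by
    rw [abs_le] at *
    constructor <;> linarith [h2.1, h2.2, h3.1, h3.2, h4.1, h4.2]
  have f2 : |min (p + q) (1 - (p + q)) - min (P + Q) (1 - (P + Q))| ≤ η := by
    refine (abs_min_sub_min_le_max _ _ _ _).trans (max_le ?_ ?_)
    · rw [← e1] at h1; exact h1
    · rw [← e1] at h1
      have : 1 - (p + q) - (1 - (P + Q)) = -(p + q - (P + Q)) := by ring
      rw [this, abs_neg]
      exact h1
  have f3 : |(|p - q| - |P - Q|)| ≤ 4 * η := by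
    unfold FF at f1
    have : |p - q| - |P - Q| = (|p - q| + min (p + q) (1 - (p + q)) -
        (|P - Q| + min (P + Q) (1 - (P + Q)))) -
        (min (p + q) (1 - (p + q)) - min (P + Q) (1 - (P + Q))) := by ring
    rw [this]
    refine (abs_sub _ _).trans ?_
    linarith
  rw [← e1] at h1
  have D0 : 0 ≤ |p - q| := abs_nonneg _
  have D1 : |p - q| ≤ 1 / 2 := by rw [abs_le]; constructor <;> linarith
  have D0' : 0 ≤ |P - Q| := abs_nonneg _
  have D1' : |P - Q| ≤ 1 / 2 := by rw [abs_le]; constructor <;> linarith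
  have s1 : |p - q| ^ 2 = (p - q) ^ 2 := sq_abs _
  have s2 : |P - Q| ^ 2 = (P - Q) ^ 2 := sq_abs _
  generalize |p - q| = D at *
  generalize |P - Q| = D' at *
  have g1 := (abs_le.mp h1)
  have g3 := (abs_le.mp f3)
  -- the two differences
  have k1 : -η ≤ (p + q - (P + Q)) * (-1 + (p + q + (P + Q)) / 2) := by
    have c0 : 0 ≤ 1 - (p + q + (P + Q)) / 2 := by linarith
    have c1 : 1 - (p + q + (P + Q)) / 2 ≤ 1 := by linarith
    nlinarith
  have k2 : -(2 * η) ≤ (D - D') * ((D + D') / 2) := by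
    have c0 : 0 ≤ (D + D') / 2 := by linarith
    have c1 : (D + D') / 2 ≤ 1 / 2 := by linarith
    nlinarith
  have e5 : (1 / 6 - p * (1 - p)) + (1 / 6 - q * (1 - q)) -
      ((1 / 6 - P * (1 - P)) + (1 / 6 - Q * (1 - Q))) =
      (p + q - (P + Q)) * (-1 + (p + q + (P + Q)) / 2) + (D ^ 2 - D' ^ 2) / 2 := by
    rw [s1, s2]
    ring
  have e6 : (D ^ 2 - D' ^ 2) / 2 = (D - D') * ((D + D') / 2) := by ring
  rw [e6] at e5
  linarith

variable {K : Type*} [Field K] [DecidableEq K] {W : WeierstrassCurve.Affine K} [W.IsElliptic]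

theorem FF_of_law {v : AbsoluteValue K ℝ} (v2 : v 2 = 2) (v3 : v 3 = 3) (h : IsAM W v)
    (X : W.Point) : |tv W v (X + X) - FF (tv W v X) (tv W v X)| ≤ Real.log (10 ^ 30) / nj W v := by
  have hΔ : W.Δ ≠ 0 := W.isUnit_Δ.ne_zero
  have := tv_alaw v2 v3 h X X
  rw [sub_self, tv_zero h.mul hΔ, add_zero] at this
  exact this

/-- A pair at an archimedean place. -/
theorem arch_pair {v : AbsoluteValue K ℝ} (v2 : v 2 = 2) (v3 : v 3 = 3) (h : IsAM W v)
    (X Y : W.Point) :
    nj W v * (B2 (tv W v X + tv W v Y) + B2 (tv W v X - tv W v Y)) - 210 ≤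
      nj W v * ((1 / 6 - tv W v (X + Y) * (1 - tv W v (X + Y))) +
        (1 / 6 - tv W v (X - Y) * (1 - tv W v (X - Y)))) := by
  have hΔ : W.Δ ≠ 0 := W.isUnit_Δ.ne_zero
  have hn := nj_pos h.mul
  have bX := tv_bounds h.mul hΔ X
  have bY := tv_bounds h.mul hΔ Y
  have bP := tv_bounds h.mul hΔ (X + Y)
  have bQ := tv_bounds h.mul hΔ (X - Y)
  have l1 : |tv W v (X + Y) + tv W v (X - Y) - FF (tv W v X) (tv W v Y)| ≤
      Real.log (10 ^ 30) / nj W v := tv_alaw v2 v3 h X Y
  have l2 : |tv W v (X + X) + tv W v (Y + Y) - FF (tv W v (X + Y)) (tv W v (X - Y))| ≤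
      Real.log (10 ^ 30) / nj W v := by
    have := tv_alaw v2 v3 h (X + Y) (X - Y)
    rw [show X + Y + (X - Y) = X + X by abel, show X + Y - (X - Y) = Y + Y by abel] at this
    exact this
  have key := pair_law bP.1 bP.2 bQ.1 bQ.2 bX.1 bX.2 bY.1 bY.2 l1 l2
    (FF_of_law v2 v3 h X) (FF_of_law v2 v3 h Y)
  have hL : Real.log (10 ^ 30) ≤ 70 := by
    have := log_ten_lt
    rw [Real.log_pow]
    push_cast
    linarith
  have h1 := mul_le_mul_of_nonneg_left key hn.le
  have h2 : nj W v * (3 * (Real.log (10 ^ 30) / nj W v)) = 3 * Real.log (10 ^ 30) := by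
    field_simp
  rw [mul_sub, h2] at h1
  have h3 : 3 * Real.log (10 ^ 30) ≤ 210 := by linarith
  exact (sub_le_sub_left h3 _).trans h1

/-- The diagonal at an archimedean place. -/
theorem arch_diag {v : AbsoluteValue K ℝ} (v2 : v 2 = 2) (v3 : v 3 = 3) (h : IsAM W v)
    (X : W.Point) :
    nj W v * (B2 (tv W v X + tv W v X) + B2 (tv W v X - tv W v X)) - nj W v / 6 - 210 ≤
      nj W v * (1 / 6 - tv W v (X + X) * (1 - tv W v (X + X))) := by
  have hΔ : W.Δ ≠ 0 := W.isUnit_Δ.ne_zero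
  have hn := nj_pos h.mul
  have bX := tv_bounds h.mul hΔ X
  have bP := tv_bounds h.mul hΔ (X + X)
  have l1 := FF_of_law v2 v3 h X
  have e2 : dn (tv W v X + tv W v X) = FF (tv W v X) (tv W v X) := FF_self bX.1 bX.2
  rw [← e2] at l1
  have l2 := quad_lip bP.1 bP.2 (DN_nonneg (tv W v X + tv W v X)) (DN_le_half _)
  rw [dn_B2, dn_B2, sub_self, dn_zero]
  have hL : Real.log (10 ^ 30) ≤ 70 := by
    have := log_ten_lt
    rw [Real.log_pow]
    push_cast
    linarith
  have h1 := mul_le_mul_of_nonneg_left (l2.trans l1) hn.le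
  have h2 : nj W v * (Real.log (10 ^ 30) / nj W v) = Real.log (10 ^ 30) := by
    field_simp
  rw [h2, mul_sub] at h1
  generalize dn (tv W v X + tv W v X) = d at *
  generalize tv W v (X + X) = t at *
  have e3 : nj W v * ((1 / 6 - d * (1 - d)) + (1 / 6 - 0 * (1 - 0))) - nj W v / 6 =
      nj W v / 6 - nj W v * (d * (1 - d)) := by ring
  have e4 : nj W v * (1 / 6 - t * (1 - t)) = nj W v / 6 - nj W v * (t * (1 - t)) := by ring
  rw [e3, e4]
  linarith

end Pool.Agent.Helper86.LQ
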