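import Pool.Agent.Helper86.LQ.Last

/-!
The forms with the share of places.
-/

open Height AdmissibleAbsValues Filter Topology

namespace Pool.Agent.Helper86.LQ

open WeierstrassCurve WeierstrassCurve.Affine WeierstrassCurve.Affine.Point NumberField
open Pool.Agent.Helper86.LH Pool.Agent.Helper86.LK Pool.Agent.Helper86.LM
open Pool.Agent.Helper86.LN Pool.Agent.Helper86.LO Pool.Agent.Helper86.LP

variable {K : Type*} [Field K] [NumberField K] [DecidableEq K]
  (W : WeierstrassCurve.Affine K) [W.IsElliptic]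

theorem rel7 {δ : ℝ} (hδ0 : 0 < δ) (hδ1 : δ ≤ 1) (P : W.Point)
    (hP : ∀ n : ℕ, 0 < n → n • P ≠ 0) {H : W.Point → ℝ}
    (hH : ∀ P : W.Point, Tendsto (fun k : ℕ => logHeight ((2 ^ k • P).xRep) / 4 ^ k)
        atTop (𝓝 (H P))) (hHm : ∀ (P : W.Point) (m : ℕ), H (m • P) = m ^ 2 * H P)
    (hH0 : ∀ P : W.Point, 0 ≤ H P) {s N r : ℕ} (hr : r = s + N * (N + 1)) (hr0 : 0 < r)
    (hw : (∃ (A : Finset (InfinitePlace K)) (B : Finset (NV K)), A.card + B.card ≤ s ∧
        δ * logHeight₁ W.j ≤ part W A B N) ∨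
      hfin W + δ * logHeight₁ W.j + 44 * totalWeight K ≤ dmin W) :
    (δ / (2 * r)) ^ 3 * (dmin W + hinf W) / 16000000000000 -
      (δ / (2 * r)) ^ 2 * totalWeight K / 1000000 ≤ H P := by
  classical
  have hΔ : W.Δ ≠ 0 := W.isUnit_Δ.ne_zero
  have h6 : (6 : K) ≠ 0 := by norm_num
  obtain ⟨S, hS⟩ := exists_big (W := W) hΔ h6
  have hd := dmin_le W hS
  have hJ := hj_eq W
  have hJ0 : 0 ≤ logHeight₁ W.j := zero_le_logHeight₁ _
  have hr1 : (1 : ℝ) ≤ r := by exact_mod_cast hr0
  have hr2 : (0 : ℝ) < 2 * r := by linarith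
  obtain ⟨ε, hε⟩ : ∃ ε : ℝ, ε = δ / (2 * r) := ⟨_, rfl⟩
  rw [← hε]
  have hε0 : 0 < ε := by rw [hε]; positivity
  have hεδ : ε ≤ δ := by
    rw [hε, div_le_iff₀ hr2]
    nlinarith
  have hε1 : ε ≤ 1 := hεδ.trans hδ1
  have hεJ : ε * logHeight₁ W.j ≤ δ * logHeight₁ W.j := mul_le_mul_of_nonneg_right hεδ hJ0
  have h5 : (0 : ℝ) ≤ totalWeight K := Nat.cast_nonneg _
  have key : ε ^ 3 * (logHeight₁ W.j + addH W) / 16000000000000 -
      ε ^ 2 * totalWeight K / 2000000 ≤ H P := by
    refine all_main5 W hε0 hε1 hS P hP hH hHm hH0 ?_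
    rcases hw with ⟨A, B, hAB, hw⟩ | hw
    swap
    · exact Or.inr (Or.inr (by linarith))
    by_cases hsm : δ * logHeight₁ W.j ≤ 94 * totalWeight K
    · exact Or.inr (Or.inl (hεJ.trans hsm))
    rw [not_le] at hsm
    refine Or.inl ?_
    set U2 := S.filter (fun v => IsMul W v.val ∧ (v ∈ B ∨ SmallPole W N v.val)) with hU2
    set U := A.disjSum U2 with hU
    have hUS : U ⊆ (Finset.univ : Finset (InfinitePlace K)).disjSum S :=
      Finset.disjSum_mono (Finset.subset_univ _) (Finset.filter_subset _ _)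
    have eU : ∑ x ∈ U, TT W x = ∑ w ∈ A, TT W (Sum.inl w) + ∑ v ∈ U2, TT W (Sum.inr v) := by
      rw [hU, Finset.sum_disjSum]
    have hmult : ∑ w : InfinitePlace K, (w.mult : ℝ) = totalWeight K := by
      have h1 := asum_const (K := K) 1
      rw [asum_eq] at h1
      simpa using h1
    have a1 : ∑ w ∈ A, (w.mult : ℝ) * Real.posLog (w W.j) ≤
        ∑ w ∈ A, TT W (Sum.inl w) + 47 * totalWeight K := by
      have b1 : ∀ w ∈ A, (w.mult : ℝ) * Real.posLog (w W.j) ≤
          TT W (Sum.inl w) + 47 * w.mult := by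
        intro w _
        have hwv : w W.j = w.val W.j := rfl
        have hm0 : (0 : ℝ) ≤ w.mult := Nat.cast_nonneg _
        unfold TT
        dsimp only
        split_ifs with hm
        · rw [nj_eq, hwv, Real.posLog_eq_log_max_one (w.val.nonneg _),
            max_eq_right ((isMul_iff W w.val).mp hm.mul).le]
          linarith
        · have h1 := not_isAM hΔ hm
          have h2 : Real.posLog (w W.j) ≤ 47 := by
            rw [hwv, ← max_j W w.val]
            have h3 : Real.log (max 1 (w.val W.c₄ ^ 3 / w.val W.Δ)) ≤ 20 * Real.log 10 := by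
              have e : 20 * Real.log 10 = Real.log (10 ^ 20) := by
                rw [Real.log_pow]; norm_num
              rw [e]
              apply Real.log_le_log (lt_of_lt_of_le one_pos (le_max_left _ _))
              exact max_le (by norm_num) h1
            have := log_ten_lt
            linarith
          have := mul_le_mul_of_nonneg_left h2 hm0
          linarith
      refine (Finset.sum_le_sum b1).trans ?_
      rw [Finset.sum_add_distrib, ← Finset.mul_sum]
      have b2 : ∑ w ∈ A, (w.mult : ℝ) ≤ ∑ w : InfinitePlace K, (w.mult : ℝ) :=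
        Finset.sum_le_sum_of_subset_of_nonneg (Finset.subset_univ _)
          (fun w _ _ => Nat.cast_nonneg _)
      rw [hmult] at b2
      linarith
    have a2 : ∑ᶠ v : NV K, (if v ∈ B ∨ SmallPole W N v.val then Real.posLog (v.val W.j) else 0) =
        ∑ v ∈ U2, TT W (Sum.inr v) := by
      rw [finsum_eq_sum_of_support_subset (s := S)]
      · rw [hU2, Finset.sum_filter]
        apply Finset.sum_congr rfl
        intro v _
        unfold TT
        dsimp only
        by_cases hm : IsMul W v.val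
        · rw [if_pos hm, ← nj_eq_posLog hm, nj]
          simp only [hm, true_and]
        · rw [posLog_of_not hm]
          simp [hm]
      · intro v hv
        by_contra hc
        apply hv
        dsimp only
        rw [posLog_of_not (hS.not_mul (fun h => hc (Finset.mem_coe.mpr h))), ite_self]
    have a3 : δ * logHeight₁ W.j / 2 ≤ ∑ x ∈ U, TT W x := by
      unfold part at hw
      rw [a2] at hw
      rw [eU]
      linarith
    set Ex := A.disjSum (S.filter (fun v => v ∈ B)) with hEx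
    have hExc : Ex.card ≤ s := by
      rw [hEx, Finset.card_disjSum]
      have : (S.filter (fun v => v ∈ B)).card ≤ B.card :=
        Finset.card_le_card (fun v hv => (Finset.mem_filter.mp hv).2)
      omega
    set Z := (VV N).image (fun t : ℝ => (fun i : ℕ => (i : ℝ) * t)) ∪
      Ex.image (fun x => XI W P x) with hZ
    have hZc : Z.card ≤ r := by
      have h1 := Finset.card_union_le ((VV N).image (fun t : ℝ => (fun i : ℕ => (i : ℝ) * t)))
        (Ex.image (fun x => XI W P x))
      have h2 := VV_card N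
      have h2' : ((VV N).image (fun t : ℝ => (fun i : ℕ => (i : ℝ) * t))).card ≤ (VV N).card :=
        Finset.card_image_le
      have h3 : (Ex.image (fun x => XI W P x)).card ≤ Ex.card := Finset.card_image_le
      rw [← hZ] at h1
      omega
    obtain ⟨I, hIU, ψ, hψ, hI⟩ := pigeon_gen U (TT W) (fun x => XI W P x)
      (fun x _ => TT_nonneg W x) Z (by
        intro x hx
        rw [hZ, Finset.mem_union]
        rcases x with w | v
        · right
          rw [Finset.mem_image]
          refine ⟨Sum.inl w, ?_, rfl⟩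
          rw [hEx, Finset.inl_mem_disjSum]
          rwa [hU, Finset.inl_mem_disjSum] at hx
        · rw [hU, Finset.inr_mem_disjSum, hU2, Finset.mem_filter] at hx
          obtain ⟨hvS, hm, hv | hv⟩ := hx
          · right
            rw [Finset.mem_image]
            refine ⟨Sum.inr v, ?_, rfl⟩
            rw [hEx, Finset.inr_mem_disjSum, Finset.mem_filter]
            exact ⟨hvS, hv⟩
          · left
            rw [Finset.mem_image]
            exact ⟨12 * tv W v.val P, tv_mem W hm hv P, rfl⟩) a3 hZc hr0 (fun _ => 0)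
    refine ⟨I, hIU.trans hUS, ψ, hψ, le_trans (le_of_eq ?_) hI⟩
    rw [hε]
    field_simp
  have hd3 : ε ^ 3 ≤ ε ^ 2 := by
    calc ε ^ 3 = ε ^ 2 * ε := by ring
      _ ≤ ε ^ 2 * 1 := mul_le_mul_of_nonneg_left hε1 (by positivity)
      _ = ε ^ 2 := mul_one _
  have hd3' : 0 < ε ^ 3 := by positivity
  have a1 : ε ^ 3 * (dmin W + hinf W) ≤ ε ^ 3 * (logHeight₁ W.j + addH W) +
      44 * (ε ^ 2 * totalWeight K) := by
    have b1 : dmin W + hinf W ≤ (logHeight₁ W.j + addH W) + 44 * totalWeight K := by linarith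
    have b2 := mul_le_mul_of_nonneg_left b1 hd3'.le
    have b3 : ε ^ 3 * (44 * (totalWeight K : ℝ)) ≤ ε ^ 2 * (44 * totalWeight K) :=
      mul_le_mul_of_nonneg_right hd3 (by positivity)
    linarith
  have f5 : 0 ≤ ε ^ 2 * (totalWeight K : ℝ) := by positivity
  linarith

theorem rel8 {δ ε : ℝ} (hδ0 : 0 < δ) (hδ1 : δ ≤ 1) (P : W.Point)
    (hP : ∀ n : ℕ, 0 < n → n • P ≠ 0) {H : W.Point → ℝ}
    (hH : ∀ P : W.Point, Tendsto (fun k : ℕ => logHeight ((2 ^ k • P).xRep) / 4 ^ k)
        atTop (𝓝 (H P))) (hHm : ∀ (P : W.Point) (m : ℕ), H (m • P) = m ^ 2 * H P)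
    (hH0 : ∀ P : W.Point, 0 ≤ H P) {s N : ℕ} (hε : ε = δ / (8 * (s + N ^ 2 + N + 1)))
    (A : Finset (InfinitePlace K)) (B : Finset (NV K)) (hAB : A.card + B.card ≤ s)
    (hw : deepR W A B N ≤ (1 - δ) * (dmin W + hinf W)) :
    ε ^ 3 * (dmin W + hinf W) / 16000000000000 - ε ^ 2 * totalWeight K / 1000000 ≤ H P := by
  have hs0 : (0 : ℝ) ≤ s := Nat.cast_nonneg _
  have hN0 : (0 : ℝ) ≤ N := Nat.cast_nonneg _
  have hN2 : (0 : ℝ) ≤ (N : ℝ) ^ 2 := sq_nonneg _
  have hden : (0 : ℝ) < 8 * (s + N ^ 2 + N + 1) := by linarith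
  have hε0 : 0 < ε := by rw [hε]; positivity
  have hεδ : ε ≤ δ := by
    rw [hε, div_le_iff₀ hden]
    nlinarith
  have hε1 : ε ≤ 1 := hεδ.trans hδ1
  have h5 : (0 : ℝ) ≤ totalWeight K := Nat.cast_nonneg _
  have hpd := part_add_deepR W A B N
  have hJ := hj_eq W
  have hJ0 : 0 ≤ logHeight₁ W.j := zero_le_logHeight₁ _
  have ha0 := hfin_le_dmin W
  have hδ4 : 0 < δ / 4 := by positivity
  have hδ41 : δ / 4 ≤ 1 := by linarith
  have e1 : ε = (δ / 4) / (2 * ((s + 1 + N * (N + 1) : ℕ) : ℝ)) := by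
    rw [hε]
    push_cast
    rw [div_div]
    congr 1
    ring
  have hr0 : 0 < s + 1 + N * (N + 1) := by omega
  by_cases h1 : δ / 4 * logHeight₁ W.j ≤ part W A B N
  · rw [e1]
    exact rel7 W hδ4 hδ41 P hP hH hHm hH0 (s := s + 1) rfl hr0 (Or.inl ⟨A, B, by omega, h1⟩)
  by_cases h2 : hfin W + δ / 4 * logHeight₁ W.j + 44 * totalWeight K ≤ dmin W
  · rw [e1]
    exact rel7 W hδ4 hδ41 P hP hH hHm hH0 (s := s + 1) rfl hr0 (Or.inr h2)
  rw [not_le] at h1 h2
  -- the height of the curve is small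
  set D := dmin W + hinf W with hD
  have h3 : δ * D ≤ part W A B N + (dmin W - hfin W) := by
    have : D = logHeight₁ W.j + (dmin W - hfin W) := by rw [hD, hJ]; ring
    nlinarith
  have h4 : δ * D = δ * logHeight₁ W.j + δ * (dmin W - hfin W) := by
    rw [hD, hJ]; ring
  have h5' : 0 ≤ δ * (dmin W - hfin W) := mul_nonneg hδ0.le (by linarith)
  have h6 : δ * logHeight₁ W.j ≤ 88 * totalWeight K := by linarith
  have h7 : δ * (dmin W - hfin W) ≤ 66 * totalWeight K := by
    have h8 : dmin W - hfin W ≤ 66 * totalWeight K := by linarith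
    nlinarith
  have h8 : δ * D ≤ 154 * totalWeight K := by linarith
  have hD0 : 0 ≤ D := by
    have : D = logHeight₁ W.j + (dmin W - hfin W) := by rw [hD, hJ]; ring
    rw [this]
    linarith
  have h9 : ε ^ 3 * D ≤ 154 * (ε ^ 2 * totalWeight K) := by
    have b3 := mul_le_mul_of_nonneg_right hεδ hD0
    have b4 := mul_le_mul_of_nonneg_left (b3.trans h8) (by positivity : 0 ≤ ε ^ 2)
    have b5 : ε ^ 2 * (ε * D) = ε ^ 3 * D := by ring
    have b6 : ε ^ 2 * (154 * (totalWeight K : ℝ)) = 154 * (ε ^ 2 * totalWeight K) := by ring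
    rw [b5, b6] at b4
    exact b4
  have f5 : 0 ≤ ε ^ 2 * (totalWeight K : ℝ) := by positivity
  have := hH0 P
  linarith

end Pool.Agent.Helper86.LQ
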