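import Pool.Agent.Helper86.LQ.Pair
import Pool.Agent.Helper86.LQ.En

/-!
Sum over pairs of multiples: bounded error at every place.
-/

open Height AdmissibleAbsValues Filter Topology

namespace Pool.Agent.Helper86.LQ

open WeierstrassCurve WeierstrassCurve.Affine WeierstrassCurve.Affine.Point NumberField
open Pool.Agent.Helper86.LH Pool.Agent.Helper86.LK Pool.Agent.Helper86.LM
open Pool.Agent.Helper86.LN Pool.Agent.Helper86.LO Pool.Agent.Helper86.LP

variable {K : Type*} [Field K] [NumberField K] [DecidableEq K]
  (W : WeierstrassCurve.Affine K) [W.IsElliptic]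

/-- The local bound for `12 R`. -/
theorem base_ineq {S : Finset (NV K)} (hS : Big W S) (R : W.Point) (hR : 12 • R ≠ 0)
    {H : W.Point → ℝ}
    (hH : ∀ P : W.Point, Tendsto (fun k : ℕ => logHeight ((2 ^ k • P).xRep) / 4 ^ k)
        atTop (𝓝 (H P))) :
    ∑ x ∈ (Finset.univ : Finset (InfinitePlace K)).disjSum S,
      TT W x * (1 / 6 - TH W (12 • R) x * (1 - TH W (12 • R) x)) +
      1 / 6 * addH W - 65 * totalWeight K ≤ H (12 • R) := by
  classical
  have h6 : (6 : K) ≠ 0 := by norm_num
  have h1 := aheight_lower2 h6 arch_two_three hS (12 • R) hR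
    (hH (12 • R)) (fun v => ga W v.val) (fun v hv => by
      have hx1 : (12 • R).xRep 1 = 1 := by
        generalize 12 • R = Q at hR
        match Q, hR with
        | Point.some x y hxy, _ => rfl
        | 0, hP => exact absurd rfl hP
      unfold ga
      split_ifs with hv6
      · obtain ⟨p, hp, d⟩ := fin_disc (⟨v.val, v.2⟩ : FinitePlace K) hv6
        exact gain d hp rfl R hR
      · rw [mul_zero, add_zero, hx1]
        exact loc_base v.val _)
  rw [← addH_eq W hS] at h1
  have h3 : ∑ x ∈ (Finset.univ : Finset (InfinitePlace K)).disjSum S,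
      TT W x * (1 / 6 - TH W (12 • R) x * (1 - TH W (12 • R) x)) =
      asum K (fun v => if IsAM W v then
        nj W v * (1 / 6 - tv W v (12 • R) * (1 - tv W v (12 • R))) else 0) +
      ∑ v ∈ S, (if IsMul W v.val then nj W v.val *
        (1 / 6 - tv W v.val (12 • R) * (1 - tv W v.val (12 • R))) else 0) := by
    rw [Finset.sum_disjSum, asum_eq]
    congr 1
    · apply Finset.sum_congr rfl
      intro v _
      unfold TT TH
      dsimp only
      split_ifs
      · ring
      · ring
    · apply Finset.sum_congr rfl
      intro v _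
      unfold TT TH
      dsimp only
      split_ifs
      · ring
      · ring
  rw [h3]
  exact h1

/-- The sequence of coordinates at a place. -/
noncomputable def XI (P : W.Point) : InfinitePlace K ⊕ NV K → ℕ → ℝ
  | Sum.inl w => fun i => tv W w.val (i • (12 • P))
  | Sum.inr v => fun i => i * (12 * tv W v.val P)

open Classical in
/-- Local error. -/
noncomputable def ER : InfinitePlace K ⊕ NV K → ℝ
  | Sum.inl w => 210 * w.mult
  | Sum.inr _ => 0

omit [DecidableEq K] in
theorem ER_sum (S : Finset (NV K)) :
    ∑ x ∈ (Finset.univ : Finset (InfinitePlace K)).disjSum S, ER (K := K) x =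
      210 * totalWeight K := by
  have hmult : ∑ w : InfinitePlace K, (w.mult : ℝ) = totalWeight K := by
    have h1 := asum_const (K := K) 1
    rw [asum_eq] at h1
    simpa using h1
  rw [Finset.sum_disjSum]
  unfold ER
  dsimp only
  rw [← Finset.mul_sum, hmult, Finset.sum_const_zero, add_zero]

theorem loc_pair (P : W.Point) {i j : ℕ} (hij : j < i) (x : InfinitePlace K ⊕ NV K) :
    TT W x * (B2 (XI W P x i + XI W P x j) + B2 (XI W P x i - XI W P x j)) - ER x ≤
      TT W x * (1 / 6 - TH W (12 • ((i + j) • P)) x * (1 - TH W (12 • ((i + j) • P)) x)) +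
      TT W x * (1 / 6 - TH W (12 • ((i - j) • P)) x * (1 - TH W (12 • ((i - j) • P)) x)) := by
  classical
  have ep : 12 • ((i + j) • P) = i • (12 • P) + j • (12 • P) := by
    rw [← mul_nsmul', ← mul_nsmul', ← mul_nsmul', ← add_nsmul]
    congr 1
    ring
  have em : 12 • ((i - j) • P) = i • (12 • P) - j • (12 • P) := by
    rw [eq_sub_iff_add_eq, ← mul_nsmul', ← mul_nsmul', ← mul_nsmul', ← add_nsmul]
    congr 1
    omega
  rcases x with w | v
  · unfold TT TH XI ER
    dsimp only
    have hm0 : (0 : ℝ) ≤ w.mult := Nat.cast_nonneg _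
    rw [ep, em]
    split_ifs with hm
    · have h23 := arch_two_three w.val (mem_multisetInfinitePlace.mpr
        ((isInfinitePlace_iff _).mpr ⟨w, rfl⟩))
      have := arch_pair h23.1 h23.2 hm (i • (12 • P)) (j • (12 • P))
      have := mul_le_mul_of_nonneg_left this hm0
      linarith
    · simp only [mul_zero, zero_mul, zero_sub, add_zero]
      linarith
  · unfold TT TH XI ER
    dsimp only
    split_ifs with hm
    · have hv := isNonarchimedean v.val v.2
      have e1 : 12 • ((i + j) • P) = (12 * (i + j)) • P := by rw [mul_comm, mul_nsmul]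
      have e2 : 12 • ((i - j) • P) = (12 * (i - j)) • P := by rw [mul_comm, mul_nsmul]
      rw [e1, e2, tv_mul hv hm P (12 * (i + j)), tv_mul hv hm P (12 * (i - j)), ← dn_B2, ← dn_B2]
      have e3 : ((12 * (i + j) : ℕ) : ℝ) * tv W v.val P =
          i * (12 * tv W v.val P) + j * (12 * tv W v.val P) := by push_cast; ring
      have e4 : ((12 * (i - j) : ℕ) : ℝ) * tv W v.val P =
          i * (12 * tv W v.val P) - j * (12 * tv W v.val P) := by
        rw [Nat.cast_mul, Nat.cast_sub hij.le]; push_cast; ring
      rw [e3, e4]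
      linarith
    · simp

theorem loc_diag (P : W.Point) (i : ℕ) (x : InfinitePlace K ⊕ NV K) :
    TT W x * (B2 (XI W P x i + XI W P x i) + B2 (XI W P x i - XI W P x i)) - TT W x / 6 - ER x ≤
      TT W x * (1 / 6 - TH W (12 • ((i + i) • P)) x * (1 - TH W (12 • ((i + i) • P)) x)) := by
  classical
  have ep : 12 • ((i + i) • P) = i • (12 • P) + i • (12 • P) := by
    rw [← mul_nsmul', ← mul_nsmul', ← add_nsmul]
    congr 1
    ring
  rcases x with w | v
  · unfold TT TH XI ER
    dsimp only
    have hm0 : (0 : ℝ) ≤ w.mult := Nat.cast_nonneg _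
    rw [ep]
    split_ifs with hm
    · have h23 := arch_two_three w.val (mem_multisetInfinitePlace.mpr
        ((isInfinitePlace_iff _).mpr ⟨w, rfl⟩))
      have := arch_diag h23.1 h23.2 hm (i • (12 • P))
      have := mul_le_mul_of_nonneg_left this hm0
      linarith
    · simp only [mul_zero, zero_mul, zero_sub, zero_div]
      linarith
  · unfold TT TH XI ER
    dsimp only
    split_ifs with hm
    · have hv := isNonarchimedean v.val v.2
      have e1 : 12 • ((i + i) • P) = (12 * (i + i)) • P := by rw [mul_comm, mul_nsmul]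
      have e0 : B2 (0 : ℝ) = 1 / 6 := by rw [dn_B2, dn_zero]; ring
      rw [e1, tv_mul hv hm P (12 * (i + i)), ← dn_B2, sub_self, e0]
      have e3 : ((12 * (i + i) : ℕ) : ℝ) * tv W v.val P =
          i * (12 * tv W v.val P) + i * (12 * tv W v.val P) := by push_cast; ring
      rw [e3]
      linarith
    · simp

end Pool.Agent.Helper86.LQ
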